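import Pool.Agent.Helper41.OA.Defs

/-!
# Project OA, piece OA-7: the test polynomial at a power bounded operator
-/

set_option autoImplicit false

namespace Pool.Agent.Helper33.OA

open Finset ComplexConjugate
open Pool.Agent.Helper41.OA

/-- Orthogonality of the characters of `Z/D`. -/
theorem sum_char {D : ℕ} (hD : 0 < D) {w : ℂ} (hw : IsPrimitiveRoot w D) (i k : ℕ) (hi : i < D)
    (hk : k < D) :
    ∑ j ∈ range D, conj (w ^ (j * i)) * w ^ (j * k) = if i = k then (D : ℂ) else 0 := by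
  have hn : ‖w‖ = 1 := hw.norm'_eq_one hD.ne'
  have hw0 : w ≠ 0 := by
    rintro rfl
    simp at hn
  have hc : conj w = w⁻¹ := (Complex.inv_eq_conj hn).symm
  have h1 : ∀ j ∈ range D, conj (w ^ (j * i)) * w ^ (j * k) = (w⁻¹ ^ i * w ^ k) ^ j := by
    intro j _
    rw [map_pow, hc, mul_pow, ← pow_mul, ← pow_mul, mul_comm j i, mul_comm j k]
  rw [sum_congr rfl h1]
  split_ifs with h
  · subst h
    have hz : w⁻¹ ^ i * w ^ i = 1 := by
      rw [← mul_pow, inv_mul_cancel₀ hw0, one_pow]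
    simp only [hz, one_pow, sum_const, card_range, nsmul_eq_mul, mul_one]
  · have hz : w⁻¹ ^ i * w ^ k ≠ 1 := by
      intro hz
      apply h
      refine hw.pow_inj hi hk ?_
      rw [inv_pow, inv_mul_eq_iff_eq_mul₀ (pow_ne_zero _ hw0), mul_one] at hz
      exact hz.symm
    have hzD : (w⁻¹ ^ i * w ^ k) ^ D = 1 := by
      rw [mul_pow, ← pow_mul, ← pow_mul, mul_comm i D, mul_comm k D, pow_mul, pow_mul, inv_pow,
        hw.pow_eq_one]
      simp
    rw [geom_sum_eq hz, hzD, sub_self, zero_div]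

/-- Parseval's identity on `Z/D`. -/
theorem parseval {H : Type*} [NormedAddCommGroup H] [InnerProductSpace ℂ H] {D : ℕ} (hD : 0 < D)
    {w : ℂ} (hw : IsPrimitiveRoot w D) (v : ℕ → H) :
    ∑ j ∈ range D, ‖∑ i ∈ range D, w ^ (j * i) • v i‖ ^ 2 = D * ∑ i ∈ range D, ‖v i‖ ^ 2 := by
  have h : ((∑ j ∈ range D, ‖∑ i ∈ range D, w ^ (j * i) • v i‖ ^ 2 : ℝ) : ℂ) =
      ((D * ∑ i ∈ range D, ‖v i‖ ^ 2 : ℝ) : ℂ) := by
    have e1 : ∀ x : H, ((‖x‖ ^ 2 : ℝ) : ℂ) = inner ℂ x x := fun x => by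
      rw [inner_self_eq_norm_sq_to_K]
      push_cast
      rfl
    rw [Complex.ofReal_mul, Complex.ofReal_sum, Complex.ofReal_sum]
    simp only [e1, sum_inner, inner_sum, inner_smul_left, inner_smul_right]
    rw [sum_comm, Complex.ofReal_natCast, mul_sum]
    refine sum_congr rfl fun i hi => ?_
    simp only [mul_sum]
    rw [sum_comm]
    have e2 : ∀ k ∈ range D,
        ∑ j ∈ range D, w ^ (j * i) * (conj (w ^ (j * k)) * inner ℂ (v k) (v i)) =
        if k = i then D * inner ℂ (v k) (v i) else 0 := by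
      intro k hk
      have e3 := sum_char hD hw k i (mem_range.1 hk) (mem_range.1 hi)
      have e4 : ∀ j ∈ range D, w ^ (j * i) * (conj (w ^ (j * k)) * inner ℂ (v k) (v i)) =
          (conj (w ^ (j * k)) * w ^ (j * i)) * inner ℂ (v k) (v i) := fun j _ => by ring
      rw [sum_congr rfl e4, ← sum_mul, e3]
      split_ifs <;> simp
    rw [sum_congr rfl e2, sum_ite_eq', if_pos hi]
  exact_mod_cast h

/-- The operator `A_j`. -/
noncomputable def Aop {H : Type*} [NormedAddCommGroup H] [InnerProductSpace ℂ H]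
    (T : H →L[ℂ] H) (D : ℕ) (w : ℂ) (j : ℕ) : H →L[ℂ] H :=
  ∑ i ∈ range D, w ^ (j * i) • T ^ i

/-- The operator `M_j`. -/
noncomputable def Mop {H : Type*} [NormedAddCommGroup H] [InnerProductSpace ℂ H]
    (T : H →L[ℂ] H) (D : ℕ) (w : ℂ) (N j : ℕ) : H →L[ℂ] H :=
  ∑ s ∈ range D, w ^ (j * s) • T ^ (N - s)

theorem aeval_Ph {H : Type*} [NormedAddCommGroup H] [InnerProductSpace ℂ H] (d : ℕ)
    (T : H →L[ℂ] H) : Polynomial.aeval T (Ph d) = ((DD d : ℂ) ^ 3)⁻¹ • ∑ j ∈ range (DD d),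
      Aop T (DD d) (rt (DD d)) j * Mop T (DD d) (conj (rt (DD d))) (NN d (pat d j)) j *
        Aop T (DD d) (rt (DD d)) j := by
  rw [Ph, map_sum, smul_sum]
  refine sum_congr rfl fun j _ => ?_
  rw [Aop, Mop, sum_mul_sum, sum_mul_sum, map_sum, smul_sum]
  refine sum_congr rfl fun i _ => ?_
  rw [map_sum, smul_sum]
  simp only [sum_mul, smul_sum, map_sum]
  rw [sum_comm]
  refine sum_congr rfl fun k _ => sum_congr rfl fun s _ => ?_
  rw [Polynomial.aeval_monomial, cf, Algebra.algebraMap_eq_smul_one, smul_mul_assoc, one_mul,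
    smul_mul_smul_comm, smul_mul_smul_comm, smul_smul]
  congr 1
  · rw [div_eq_mul_inv]
    ring
  · rw [pow_add, pow_add]

theorem norm_Mop_le {H : Type*} [NormedAddCommGroup H] [InnerProductSpace ℂ H] (T : H →L[ℂ] H)
    {C : ℝ} (hT : ∀ n : ℕ, ‖T ^ n‖ ≤ C) (D : ℕ) {w : ℂ} (hw : ‖w‖ = 1) (N j : ℕ) :
    ‖Mop T D w N j‖ ≤ D * C := by
  refine (norm_sum_le _ _).trans ?_
  have h : ∀ s ∈ range D, ‖w ^ (j * s) • T ^ (N - s)‖ ≤ C := by
    intro s _
    rw [norm_smul, norm_pow, hw, one_pow, one_mul]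
    exact hT _
  refine (sum_le_sum h).trans ?_
  simp

theorem sum_Aop_le {H : Type*} [NormedAddCommGroup H] [InnerProductSpace ℂ H] {T : ℕ → H →L[ℂ] H}
    {C : ℝ} (hC : 0 ≤ C) (hT : ∀ n : ℕ, ‖T n‖ ≤ C) {D : ℕ} (hD : 0 < D) {w : ℂ}
    (hw : IsPrimitiveRoot w D) (x : H) :
    √(∑ j ∈ range D, ‖∑ i ∈ range D, w ^ (j * i) • T i x‖ ^ 2) ≤ D * C * ‖x‖ := by
  rw [parseval hD hw]
  refine Real.sqrt_le_iff.2 ⟨by positivity, ?_⟩
  have h : ∀ i ∈ range D, ‖T i x‖ ^ 2 ≤ (C * ‖x‖) ^ 2 := by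
    intro i _
    exact pow_le_pow_left₀ (norm_nonneg _) ((T i).le_of_opNorm_le (hT i) x) 2
  have h2 := mul_le_mul_of_nonneg_left (sum_le_sum h) (Nat.cast_nonneg (α := ℝ) D)
  refine h2.trans (le_of_eq ?_)
  rw [sum_const, card_range, nsmul_eq_mul]
  ring

theorem op_bound.{u} (d : ℕ) {H : Type u} [NormedAddCommGroup H] [InnerProductSpace ℂ H]
    [CompleteSpace H] (T : H →L[ℂ] H) (C : ℝ) (hT : ∀ n : ℕ, ‖T ^ n‖ ≤ C) :
    ‖Polynomial.aeval T (Ph d)‖ ≤ C ^ 3 := by
  have hC : 0 ≤ C := (norm_nonneg _).trans (hT 0)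
  have hD : 0 < DD d := by
    rw [DD]
    positivity
  have hDR : (0 : ℝ) < DD d := by exact_mod_cast hD
  have hw : IsPrimitiveRoot (rt (DD d)) (DD d) := Complex.isPrimitiveRoot_exp _ hD.ne'
  have hw' : IsPrimitiveRoot (conj (rt (DD d))) (DD d) :=
    hw.map_of_injective (RingHom.injective (starRingEnd ℂ))
  have hn' : ‖conj (rt (DD d))‖ = 1 := hw'.norm'_eq_one hD.ne'
  set D := DD d with hDdef
  set w := rt D with hwdef
  have key : ∀ x y : H, ‖inner ℂ y (Polynomial.aeval T (Ph d) x)‖ ≤ C ^ 3 * ‖x‖ * ‖y‖ := by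
    intro x y
    have e1 : inner ℂ y (Polynomial.aeval T (Ph d) x) = ((D : ℂ) ^ 3)⁻¹ * ∑ j ∈ range D,
        inner ℂ (ContinuousLinearMap.adjoint (Aop T D w j) y)
          (Mop T D (conj w) (NN d (pat d j)) j (Aop T D w j x)) := by
      rw [aeval_Ph, _root_.smul_apply, inner_smul_right, ← hDdef, ← hwdef]
      congr 1
      rw [_root_.sum_apply, inner_sum]
      refine sum_congr rfl fun j _ => ?_
      rw [ContinuousLinearMap.adjoint_inner_left]
      rfl
    have e2 : ∀ j ∈ range D, ‖inner ℂ (ContinuousLinearMap.adjoint (Aop T D w j) y)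
          (Mop T D (conj w) (NN d (pat d j)) j (Aop T D w j x))‖ ≤
        (D * C) * (‖ContinuousLinearMap.adjoint (Aop T D w j) y‖ * ‖Aop T D w j x‖) := by
      intro j _
      refine (norm_inner_le_norm _ _).trans ?_
      have h1 := (Mop T D (conj w) (NN d (pat d j)) j).le_of_opNorm_le
        (norm_Mop_le T hT D hn' (NN d (pat d j)) j) (Aop T D w j x)
      have h2 := mul_le_mul_of_nonneg_left h1
        (norm_nonneg (ContinuousLinearMap.adjoint (Aop T D w j) y))
      refine h2.trans (le_of_eq ?_)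
      ring
    have e3 : √(∑ j ∈ range D, ‖Aop T D w j x‖ ^ 2) ≤ D * C * ‖x‖ := by
      have h1 := sum_Aop_le (T := fun i => T ^ i) hC hT hD hw x
      have h2 : ∀ j, Aop T D w j x = ∑ i ∈ range D, w ^ (j * i) • (T ^ i) x := by
        intro j
        rw [Aop, _root_.sum_apply]
        rfl
      simp only [h2]
      exact h1
    have e4 : √(∑ j ∈ range D, ‖ContinuousLinearMap.adjoint (Aop T D w j) y‖ ^ 2) ≤
        D * C * ‖y‖ := by
      have h1 := sum_Aop_le (T := fun i => ContinuousLinearMap.adjoint (T ^ i)) hC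
        (fun n => by rw [LinearIsometryEquiv.norm_map]; exact hT n) hD hw' y
      have h2 : ∀ j, ContinuousLinearMap.adjoint (Aop T D w j) y =
          ∑ i ∈ range D, (conj w) ^ (j * i) • ContinuousLinearMap.adjoint (T ^ i) y := by
        intro j
        rw [Aop, map_sum, _root_.sum_apply]
        refine sum_congr rfl fun i _ => ?_
        rw [map_smulₛₗ, map_pow]
        rfl
      simp only [h2]
      exact h1
    have e5 := Real.sum_mul_le_sqrt_mul_sqrt (range D)
      (fun j => ‖ContinuousLinearMap.adjoint (Aop T D w j) y‖) (fun j => ‖Aop T D w j x‖)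
    have e6 : ∑ j ∈ range D, ‖ContinuousLinearMap.adjoint (Aop T D w j) y‖ * ‖Aop T D w j x‖ ≤
        (D * C * ‖y‖) * (D * C * ‖x‖) :=
      e5.trans (mul_le_mul e4 e3 (Real.sqrt_nonneg _) (by positivity))
    have e7 := (norm_sum_le _ _).trans (sum_le_sum e2)
    rw [← mul_sum] at e7
    have e8 := e7.trans (mul_le_mul_of_nonneg_left e6 (by positivity : 0 ≤ (D : ℝ) * C))
    rw [e1, norm_mul, norm_inv, norm_pow, Complex.norm_natCast]
    refine (mul_le_mul_of_nonneg_left e8 (by positivity)).trans (le_of_eq ?_)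
    field_simp
  refine ContinuousLinearMap.opNorm_le_bound _ (by positivity) fun x => ?_
  have h1 := key x (Polynomial.aeval T (Ph d) x)
  by_cases h0 : ‖Polynomial.aeval T (Ph d) x‖ = 0
  · rw [h0]
    positivity
  · have h2 : ‖inner ℂ (Polynomial.aeval T (Ph d) x) (Polynomial.aeval T (Ph d) x)‖ =
        ‖Polynomial.aeval T (Ph d) x‖ * ‖Polynomial.aeval T (Ph d) x‖ := by
      rw [inner_self_eq_norm_sq_to_K, ← pow_two]
      simp
    rw [h2] at h1
    exact le_of_mul_le_mul_right h1 (lt_of_le_of_ne (norm_nonneg _) (Ne.symm h0))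

end Pool.Agent.Helper33.OA
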